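import Mathlib

/-! Definitions for the convexified packing numbers in Hilbert geometry. -/

open scoped RealInnerProductSpace BigOperators

namespace Pool.Agent.MP_dc1150_gt

/-- Euclidean space of dimension `d`. -/
abbrev Euc (d : ℕ) : Type := EuclideanSpace ℝ (Fin d)

/-- A convex body: compact, convex, with nonempty interior. -/
def IsConvexBody {d : ℕ} (K : Set (Euc d)) : Prop :=
  IsCompact K ∧ Convex ℝ K ∧ (interior K).Nonempty

/-- An admissible pair. -/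
def Admissible {d : ℕ} (G K : Set (Euc d)) : Prop :=
  IsConvexBody G ∧ IsConvexBody K ∧ (0 : Euc d) ∈ interior G ∧ G ⊆ interior K

/-- The polar body. -/
def polarSet {d : ℕ} (K : Set (Euc d)) : Set (Euc d) :=
  {y | ∀ x ∈ K, ⟪x, y⟫ ≤ 1}

/-- The Hilbert metric of `B`. -/
noncomputable def hilbertDist {d : ℕ} (B : Set (Euc d)) (u v : Euc d) : ℝ :=
  (1 / 2) * sSup {r : ℝ | ∃ p ∈ polarSet B, ∃ q ∈ polarSet B,
    r = Real.log (((1 - ⟪p, u⟫) * (1 - ⟪q, v⟫)) / ((1 - ⟪p, v⟫) * (1 - ⟪q, u⟫)))}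

/-- The convexified packing number. -/
noncomputable def Mconv {d : ℕ} (A B : Set (Euc d)) (α : ℝ) : ℕ∞ :=
  sSup {n : ℕ∞ | ∃ N : ℕ, n = N ∧ ∃ x : Fin N → Euc d, (∀ i, x i ∈ A) ∧
    ∀ j, ∀ u ∈ convexHull ℝ (x '' {i | i < j}), α ≤ hilbertDist B (x j) u}

/-- The diagonal convexified packing number. -/
noncomputable def Mdiag {d : ℕ} (A B : Set (Euc d)) (η : ℝ) : ℕ∞ :=
  sSup {n : ℕ∞ | ∃ N : ℕ, n = N ∧ ∃ y z : Fin N → Euc d, (∀ i, y i ∈ A) ∧ (∀ i, z i ∈ A) ∧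
    ∀ j, ∀ w : Fin N → ℝ, (∀ i, 0 ≤ w i) → (∀ i, j ≤ i → w i = 0) → ∑ i, w i = 1 →
      η ≤ hilbertDist B (∑ i, w i • y i) (y j) + hilbertDist B (∑ i, w i • z i) (z j)}

end Pool.Agent.MP_dc1150_gt
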